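import Pool.Agent.X117.QSE

/-!
# MP_f75e32_co, Q1

For every `n ≥ 2` and `J ⊆ [n-2]`, `𝒬(C_n D_{n-1,J}^{-1}) = 𝒬(D_{n-1,J}^{-1} C_n)`.
-/

namespace Pool.Agent.Results.MP_f75e32_co.Rotations

open Equiv Pool.Agent.X117.QS

/-- The cyclic subgroup of `S_n`, `n = m + 1`, generated by the `n`-cycle `i ↦ i + 1`. -/
noncomputable def cyc (m : ℕ) : Finset (Perm (Fin (m + 1))) := by
  classical
  exact Finset.univ.filter fun c => c ∈ Subgroup.zpowers (finRotate (m + 1))

/-- The inverse descent class `D_{n-1,J}^{-1} = {τ ∈ S_{n-1} : Des(τ⁻¹) = J}`, `n = m + 1`, as a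
set of permutations in `S_n` that fix `n`. -/
noncomputable def cls (m : ℕ) (J : Finset ℕ) : Finset (Perm (Fin (m + 1))) := by
  classical
  exact Finset.univ.filter fun σ => ∃ τ : Perm (Fin m), Des τ⁻¹ = J ∧
    σ (Fin.last m) = Fin.last m ∧ ∀ i : Fin m, σ i.castSucc = (τ i).castSucc

variable {m : ℕ}

theorem des_ext {σ : Perm (Fin (m + 1))} {τ : Perm (Fin m)} (h1 : σ (Fin.last m) = Fin.last m)
    (h2 : ∀ i : Fin m, σ i.castSucc = (τ i).castSucc) : Des σ = Des τ := by
  ext i
  rw [mem_Des, mem_Des]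
  constructor
  · rintro ⟨j, k, h3, h4, h5⟩
    have hk : k ≠ Fin.last m := by
      rintro rfl
      rw [h1] at h5
      exact absurd h5 (not_lt.mpr (Fin.le_last _))
    have hj : j ≠ Fin.last m := by
      rintro rfl
      have := k.2
      simp at h3
      omega
    obtain ⟨j, rfl⟩ := Fin.exists_castSucc_eq.mpr hj
    obtain ⟨k, rfl⟩ := Fin.exists_castSucc_eq.mpr hk
    refine ⟨j, k, by simpa using h3, by simpa using h4, ?_⟩
    rw [h2, h2] at h5
    simpa using h5
  · rintro ⟨j, k, h3, h4, h5⟩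
    refine ⟨j.castSucc, k.castSucc, by simpa using h3, by simpa using h4, ?_⟩
    rw [h2, h2]
    simpa using h5

theorem mem_cls {J : Finset ℕ} {σ : Perm (Fin (m + 1))} :
    σ ∈ cls m J ↔ σ (Fin.last m) = Fin.last m ∧ Des σ⁻¹ = J := by
  classical
  rw [cls, Finset.mem_filter]
  simp only [Finset.mem_univ, true_and]
  constructor
  · rintro ⟨τ, h1, h2, h3⟩
    refine ⟨h2, ?_⟩
    rw [← h1]
    apply des_ext
    · conv_lhs => rw [← h2]
      simp
    · intro i
      have := h3 (τ⁻¹ i)
      rw [show τ (τ⁻¹ i) = i by simp] at this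
      rw [← this]
      simp
  · rintro ⟨h1, h2⟩
    have hne : ∀ i : Fin m, σ i.castSucc ≠ Fin.last m := by
      intro i h
      have := σ.injective (h.trans h1.symm)
      exact (Fin.castSucc_lt_last i).ne this
    let t : Fin m → Fin m := fun i => (σ i.castSucc).castPred (hne i)
    have ht : ∀ i, (t i).castSucc = σ i.castSucc := fun i => Fin.castSucc_castPred _ _
    have hinj : Function.Injective t := by
      intro i j hij
      have := congrArg Fin.castSucc hij
      rw [ht, ht] at this
      exact Fin.castSucc_injective _ (σ.injective this)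
    let τ : Perm (Fin m) := Equiv.ofBijective t (Finite.injective_iff_bijective.mp hinj)
    have hτ : ∀ i, σ i.castSucc = (τ i).castSucc := fun i => (ht i).symm
    refine ⟨τ, ?_, h1, hτ⟩
    rw [← h2]
    symm
    apply des_ext
    · conv_lhs => rw [← h1]
      simp
    · intro i
      have := hτ (τ⁻¹ i)
      rw [show τ (τ⁻¹ i) = i by simp] at this
      rw [← this]
      simp

theorem pow_addRight (a : Fin (m + 1)) (k : ℕ) :
    (Equiv.addRight a : Perm (Fin (m + 1))) ^ k = Equiv.addRight (k • a) := by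
  induction k with
  | zero =>
    ext i
    simp
  | succ k ih =>
    rw [pow_succ, ih]
    ext i
    simp only [Perm.mul_apply, Equiv.coe_addRight]
    rw [succ_nsmul', add_assoc]

theorem cyc_eq [DecidableEq (Perm (Fin (m + 1)))] :
    cyc m = (Finset.univ : Finset (Fin (m + 1))).image rotp := by
  classical
  have h1 : finRotate (m + 1) = Equiv.addRight (1 : Fin (m + 1)) := by
    ext i
    rw [finRotate_apply]
    rfl
  ext c
  rw [cyc, Finset.mem_filter, Finset.mem_image]
  simp only [Finset.mem_univ, true_and]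
  rw [← mem_powers_iff_mem_zpowers, Submonoid.mem_powers_iff, h1]
  constructor
  · rintro ⟨k, rfl⟩
    refine ⟨Fin.last m - k • (1 : Fin (m + 1)), ?_⟩
    rw [rotp, sub_sub_cancel, pow_addRight]
  · rintro ⟨p, rfl⟩
    refine ⟨((Fin.last m - p : Fin (m + 1)) : ℕ), ?_⟩
    rw [pow_addRight, rotp]
    congr 1
    have hk : ∀ k : ℕ, ((k • (1 : Fin (m + 1)) : Fin (m + 1)) : ℕ) = k % (m + 1) := by
      intro k
      induction k with
      | zero => simp
      | succ k ih =>
        rw [succ_nsmul, Fin.val_add, ih, Fin.val_one']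
        simp [Nat.add_mod]
    apply Fin.ext
    rw [hk]
    exact Nat.mod_eq_of_lt (Fin.last m - p).2

open Classical in
/-- **`𝒬(C_n D_{n-1,J}^{-1}) = 𝒬(D_{n-1,J}^{-1} C_n)`** for `n = m + 1 ≥ 2`, `J ⊆ [n-2]`. -/
theorem result (m : ℕ) (J : Finset ℕ) :
    Q (mulM (cyc m) (cls m J)) = Q (mulM (cls m J) (cyc m)) := by
  apply Q_eq
  intro f hf
  rw [countP_mulM, countP_mulM]
  revert J
  apply eq_of_sum_powerset
  intro J
  let g : Fin (m + 1) → ℕ := blk (insert m J)
  have hg : Monotone g := blk_mono _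
  have hlast : ∀ j, j ≠ Fin.last m → g j < g (Fin.last m) := by
    intro j hj
    have hjm : (j : ℕ) < m := by
      have h1 := j.2
      have h2 : (j : ℕ) ≠ m := fun h => hj (Fin.ext h)
      omega
    apply Finset.card_lt_card
    rw [Finset.ssubset_iff_of_subset]
    · exact ⟨m, by simp, by simp; omega⟩
    · intro i hi
      rw [Finset.mem_filter] at hi ⊢
      exact ⟨hi.1, by simp; omega⟩
  have hres : ∀ σ : Perm (Fin (m + 1)), σ (Fin.last m) = Fin.last m →
      (Resp g σ⁻¹ ↔ Des σ⁻¹ ⊆ J) := by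
    intro σ hσ
    rw [resp_blk]
    have hm : m ∉ Des σ⁻¹ := by
      intro h
      obtain ⟨j, k, h3, h4, h5⟩ := mem_Des.mp h
      have hk : k = Fin.last m := Fin.ext h4
      have e1 : σ⁻¹ (Fin.last m) = Fin.last m := by
        conv_lhs => rw [← hσ]
        simp
      rw [hk, e1] at h5
      exact absurd h5 (not_lt.mpr (Fin.le_last _))
    constructor
    · intro h i hi
      rcases Finset.mem_insert.mp (h hi) with h1 | h1
      · exact absurd hi (by rw [h1]; exact hm)
      · exact h1
    · exact fun h => h.trans (Finset.subset_insert _ _)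
  have key : ∀ P : Fin (m + 1) → Perm (Fin (m + 1)) → Prop,
      ∑ K ∈ J.powerset, ∑ p : Fin (m + 1), ((cls m K).filter fun σ => P p σ).card =
      ∑ p : Fin (m + 1), (Finset.univ.filter fun σ : Perm (Fin (m + 1)) =>
        σ (Fin.last m) = Fin.last m ∧ Resp g σ⁻¹ ∧ P p σ).card := by
    intro P
    rw [Finset.sum_comm]
    refine Finset.sum_congr rfl fun p _ => ?_
    rw [Finset.card_eq_sum_card_fiberwise (f := fun σ => Des σ⁻¹) (t := J.powerset)]
    · refine Finset.sum_congr rfl fun K hK => ?_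
      rw [Finset.mem_powerset] at hK
      congr 1
      ext σ
      simp only [Finset.mem_filter, Finset.mem_univ, true_and, mem_cls]
      constructor
      · rintro ⟨⟨h1, h2⟩, h3⟩
        exact ⟨⟨h1, (hres σ h1).mpr (h2 ▸ hK), h3⟩, h2⟩
      · rintro ⟨⟨h1, -, h3⟩, h2⟩
        exact ⟨⟨h1, h2⟩, h3⟩
    · intro σ hσ
      simp only [Finset.coe_filter, Finset.mem_univ, true_and, Set.mem_ofPred_eq] at hσ
      rw [Finset.mem_coe, Finset.mem_powerset]
      exact (hres σ hσ.1).mp hσ.2.1
  have e1 : ∀ K, ((cyc m ×ˢ cls m K).filter fun p => Resp f (p.1 * p.2)).card =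
      ∑ p : Fin (m + 1), ((cls m K).filter fun σ => Resp f (rotp p * σ)).card := by
    intro K
    rw [Finset.card_filter, Finset.sum_product, cyc_eq,
      Finset.sum_image fun p _ q _ h => rotp_inj h]
    exact Finset.sum_congr rfl fun p _ => (Finset.card_filter _ _).symm
  have e2 : ∀ K, ((cls m K ×ˢ cyc m).filter fun p => Resp f (p.1 * p.2)).card =
      ∑ p : Fin (m + 1), ((cls m K).filter fun σ => Resp f (σ * rotp p)).card := by
    intro K
    rw [Finset.card_filter, Finset.sum_product_right, cyc_eq,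
      Finset.sum_image fun p _ q _ h => rotp_inj h]
    exact Finset.sum_congr rfl fun p _ => (Finset.card_filter _ _).symm
  simp_rw [e1, e2]
  rw [key fun p σ => Resp f (rotp p * σ), key fun p σ => Resp f (σ * rotp p)]
  exact main_count hf hg hlast

end Pool.Agent.Results.MP_f75e32_co.Rotations
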